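import Pool.Agent.T2H97.CE.Opt

/-!
# Foremost coverage of periodic temporal trees of maximum degree three is NP-hard

The period `p` is part of the input. We reduce from satisfiability, with `m` clauses and `N` variables.
The tree is a caterpillar with the spine `0, ..., R` and one leaf attached to each of the spine
vertices `0, ..., R - 1`, where `R = 3 N + m`. The spine edges are always present. Time is cut into
blocks of `2 R + 1` steps; apart from the last step of the period, which comes after the deadline, a
leaf edge can be present only in the last step of a block, so that between two such steps the agent
can move freely on the spine. The blocks are grouped into `2 N` zones of `2 m + 4` blocks, one zone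
for every literal. A leaf is visited by crossing its edge in one block and crossing it back in a
later one.

* The leaf of a variable can be visited in the zones of its two literals only, and such a visit takes
  all of the zone.
* The leaf of a clause can be visited in the zones of its literals only, in two consecutive blocks
  that are its own.
* Each zone ends with two blocks in which a leaf that is present in no other block has to be visited;
  so no other visit extends over two zones.

So the agent can cover all vertices by the deadline if and only if there is an assignment such that
every clause has a literal whose zone is not used by its variable, that is, a true literal.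

Definitions used in the statement: `FinGraph` (`Pool/Agent/H692R2/FinGraph.lean`: a simple graph on
`{0, ..., n - 1}`, coded by its adjacency matrix), `NPHardOn` (`Pool/Agent/H673R2/HardOn.lean`: every
language in NP has a polynomial-time many-one reduction to the problem all of whose instances are in
the class), `Valid`, `CoveredInTime` and the definitions used there (`Pool/Agent/T2H97/CE/Main.lean`),
`IsCoverTime` (`Pool/Agent/T2H97/CE/Opt.lean`).
-/

set_option autoImplicit false

namespace Pool.Agent.Results.MP_ce2681_lc.CaterpillarsNPHard

open Pool.Agent.NPC Pool.Agent.H692R2 Pool.Agent.H673R2 Pool.Agent.T2H97.CE

/-- **Single-agent DMVP on periodic temporal trees, with the period in the input, is NP-hard, even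
for caterpillars of maximum degree at most three.**

* The decision version is NP-hard on the instances whose tree is a caterpillar of maximum degree at
  most three.
* If a polynomial-time algorithm solves the decision version on these instances, or computes the
  cover time on these instances, then every language in NP is in P.
* Polynomial time may be measured in the number of vertices, the period and the number of binary
  digits of the deadline.
* The cover time exists for every periodic temporal tree. -/
theorem result :
    NPHardOn Valid CoveredInTime ∧
    (∀ A : List Bool → List Bool, PolyTime A →
      ((∀ I : Inst, Valid I → (A (bits I) = [true] ↔ CoveredInTime I)) ∨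
        (∀ (T : FinGraph) (s : ℕ) (S : List FinGraph), Valid (T, s, 0, S) →
          ∀ c, IsCoverTime T s S c → A (bits (T, s, S)) = bits c)) →
      ∀ L, InNP L → InP L) ∧
    (∃ q : Polynomial ℕ, ∀ I : Inst, IsPeriodicTree I →
      I.1.n ≤ (bits I).length ∧ I.2.2.2.length ≤ (bits I).length ∧
      (bits I).length ≤ q.eval (I.1.n + I.2.2.2.length + I.2.2.1.size)) ∧
    (∀ (T : FinGraph) (s t : ℕ) (S : List FinGraph), IsPeriodicTree (T, s, t, S) →
      ∃ c, IsCoverTime T s S c) := by
  refine ⟨hard, fun A hA h => ?_, length_bits, fun T s t S h => exists_coverTime h⟩
  rcases h with h | h
  · exact decide_collapse hA h
  · exact compute_collapse hA h

end Pool.Agent.Results.MP_ce2681_lc.CaterpillarsNPHard
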